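import Pool.Agent.H527R3.Toda.BSum

/-!
# The arithmetic of the reduction of `#·NP` to `#P`
-/

namespace Pool.Agent.NPC.Cnt

/-- The gadget: modulo `k ^ M` it is `1` if `k ∣ z` and `0` otherwise. -/
def gadget (k M z : ℕ) : ℕ := (1 + (k ^ M - 1) * z ^ ((k - 1) * M)) ^ M

theorem gadget_of_dvd {k M z : ℕ} (hk : k.Prime) (hz : k ∣ z) : gadget k M z ≡ 1 [MOD k ^ M] := by
  have h1 : k ^ M ∣ z ^ ((k - 1) * M) := by
    refine (pow_dvd_pow_of_dvd hz M).trans (pow_dvd_pow z ?_)
    have := hk.two_le
    exact Nat.le_mul_of_pos_left M (by omega)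
  have h2 : 1 + (k ^ M - 1) * z ^ ((k - 1) * M) ≡ 1 [MOD k ^ M] := by
    have h3 : (k ^ M - 1) * z ^ ((k - 1) * M) ≡ 0 [MOD k ^ M] :=
      (Nat.modEq_zero_iff_dvd).2 (h1.mul_left _)
    simpa using Nat.ModEq.add_left 1 h3
  simpa [gadget] using h2.pow M

theorem gadget_of_not_dvd {k M z : ℕ} (hk : k.Prime) (hz : ¬ k ∣ z) :
    gadget k M z ≡ 0 [MOD k ^ M] := by
  rw [Nat.modEq_zero_iff_dvd]
  rcases Nat.eq_zero_or_pos M with hM | hM
  · subst hM
    simp
  refine pow_dvd_pow_of_dvd ?_ M
  have h1 : z ^ ((k - 1) * M) ≡ 1 [MOD k] := by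
    have h2 : z ^ (k - 1) ≡ 1 [MOD k] := by
      have := Nat.ModEq.pow_totient ((Nat.Prime.coprime_iff_not_dvd hk).2 hz).symm
      rwa [Nat.totient_prime hk] at this
    rw [pow_mul]
    simpa using h2.pow M
  have h3 : 1 + (k ^ M - 1) * z ^ ((k - 1) * M) ≡ 1 + (k ^ M - 1) * 1 [MOD k] :=
    Nat.ModEq.add_left 1 (Nat.ModEq.mul_left _ h1)
  have h4 : 1 + (k ^ M - 1) * 1 = k ^ M := by
    have := pow_pos hk.pos M
    omega
  rw [h4] at h3
  have h5 : k ^ M ≡ 0 [MOD k] := by
    rw [Nat.modEq_zero_iff_dvd]
    exact dvd_pow_self k (by omega)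
  exact (Nat.modEq_zero_iff_dvd).1 (h3.trans h5)

/-- The monomial of `w` at the point coded by `r` (blocks of `s` bits). -/
def mono (s : ℕ) : List Bool → List Bool → ℕ
  | [], _ => 1
  | b :: w, r => (if b then valB (r.take s) else 1) * mono s w (r.drop s)

theorem sum_range_two_mul (g : ℕ → ℕ) : ∀ n : ℕ,
    ∑ x ∈ Finset.range (2 * n), g x = ∑ x ∈ Finset.range n, (g (2 * x) + g (2 * x + 1))
  | 0 => by simp
  | n + 1 => by
    rw [show 2 * (n + 1) = 2 * n + 1 + 1 by ring, Finset.sum_range_succ, Finset.sum_range_succ,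
      sum_range_two_mul g n, Finset.sum_range_succ]
    ring

theorem bsum_valB : ∀ (s : ℕ) (g : ℕ → ℕ),
    bsum s (fun u => g (valB u)) = ∑ x ∈ Finset.range (2 ^ s), g x
  | 0, g => by simp [bsum_zero]
  | s + 1, g => by
    rw [bsum_succ, pow_succ, mul_comm, sum_range_two_mul, Finset.sum_add_distrib,
      ← bsum_valB s (fun x => g (2 * x)), ← bsum_valB s (fun x => g (2 * x + 1))]
    congr 1
    · exact bsum_congr fun w _ => by simp
    · refine bsum_congr fun w _ => ?_
      simp only [valB_cons, if_true]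
      rw [Nat.add_comm]

theorem one_root {k s A C : ℕ} (hk : k.Prime) (hs : 2 ^ s ≤ k) (hC : ¬ k ∣ C) :
    bsum s (fun u => (decide (k ∣ A + valB u * C)).toNat) ≤ 1 := by
  rw [bsum_valB s (fun x => (decide (k ∣ A + x * C)).toNat)]
  have e : ∑ x ∈ Finset.range (2 ^ s), (decide (k ∣ A + x * C)).toNat =
      ((Finset.range (2 ^ s)).filter (fun x => k ∣ A + x * C)).card := by
    rw [Finset.card_filter]
    refine Finset.sum_congr rfl fun x _ => ?_
    by_cases h : k ∣ A + x * C <;> simp [h]
  rw [e, Finset.card_le_one]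
  intro x hx y hy
  rw [Finset.mem_filter, Finset.mem_range] at hx hy
  have h1 : A + x * C ≡ A + y * C [MOD k] :=
    ((Nat.modEq_zero_iff_dvd).2 hx.2).trans ((Nat.modEq_zero_iff_dvd).2 hy.2).symm
  have h2 : x * C ≡ y * C [MOD k] := Nat.ModEq.add_left_cancel' A h1
  have h3 : x ≡ y [MOD k] :=
    Nat.ModEq.cancel_right_of_coprime ((Nat.Prime.coprime_iff_not_dvd hk).2 hC) h2
  exact Nat.ModEq.eq_of_lt_of_lt h3 (by omega) (by omega)

/-- The polynomial with coefficients `c` at the point coded by `r`. -/
def zpoly (s p : ℕ) (c : List Bool → ℕ) (r : List Bool) : ℕ := bsum p (fun w => c w * mono s w r)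

theorem zpoly_zero (s : ℕ) (c : List Bool → ℕ) (r : List Bool) : zpoly s 0 c r = c [] := by
  simp [zpoly, bsum_zero, mono]

theorem zpoly_succ (s p : ℕ) (c : List Bool → ℕ) {u : List Bool} (hu : u.length = s)
    (r : List Bool) : zpoly s (p + 1) c (u ++ r) =
      zpoly s p (fun w => c (false :: w)) r + valB u * zpoly s p (fun w => c (true :: w)) r := by
  unfold zpoly
  rw [bsum_succ, ← bsum_mul_left]
  congr 1
  · refine bsum_congr fun w _ => ?_
    simp only [mono, List.drop_left' hu]
    simp
  · refine bsum_congr fun w _ => ?_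
    simp only [mono, List.drop_left' hu, List.take_left' hu, if_true]
    ring

theorem schwartz_zippel {k s : ℕ} (hk : k.Prime) (hs : 2 ^ s ≤ k) : ∀ (p : ℕ) (c : List Bool → ℕ),
    (∃ w, w.length = p ∧ ¬ k ∣ c w) →
    bsum (p * s) (fun r => (decide (k ∣ zpoly s p c r)).toNat) * 2 ^ s ≤ p * 2 ^ (p * s)
  | 0, c, h => by
    obtain ⟨w, hw, hc⟩ := h
    rw [List.length_eq_zero_iff] at hw
    subst hw
    simp [bsum_zero, zpoly_zero, hc]
  | p + 1, c, h => by
    have hsplit : (p + 1) * s = s + p * s := by ring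
    rw [hsplit, bsum_append, bsum_comm]
    have e : ∀ r, bsum s (fun u => (decide (k ∣ zpoly s (p + 1) c (u ++ r))).toNat) =
        bsum s (fun u => (decide (k ∣ zpoly s p (fun w => c (false :: w)) r +
          valB u * zpoly s p (fun w => c (true :: w)) r)).toNat) :=
      fun r => bsum_congr fun u hu => by rw [zpoly_succ s p c hu]
    simp only [e]
    by_cases h1 : ∃ w, w.length = p ∧ ¬ k ∣ c (true :: w)
    · have ih := schwartz_zippel hk hs p (fun w => c (true :: w)) h1
      set B := bsum (p * s)
        (fun r => (decide (k ∣ zpoly s p (fun w => c (true :: w)) r)).toNat) with hB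
      have h2 : bsum (p * s) (fun r => bsum s (fun u =>
          (decide (k ∣ zpoly s p (fun w => c (false :: w)) r +
          valB u * zpoly s p (fun w => c (true :: w)) r)).toNat)) ≤
          bsum (p * s) (fun r => 1 +
            (decide (k ∣ zpoly s p (fun w => c (true :: w)) r)).toNat * 2 ^ s) := by
        refine bsum_le fun r _ => ?_
        by_cases h3 : k ∣ zpoly s p (fun w => c (true :: w)) r
        · have h4 : bsum s (fun u => (decide (k ∣ zpoly s p (fun w => c (false :: w)) r +
              valB u * zpoly s p (fun w => c (true :: w)) r)).toNat) ≤ bsum s (fun _ => 1) :=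
            bsum_le fun u _ => Bool.toNat_le _
          rw [bsum_const] at h4
          simp only [h3, decide_true, Bool.toNat_true]
          omega
        · have h4 := one_root (A := zpoly s p (fun w => c (false :: w)) r) hk hs h3
          omega
      rw [bsum_add, bsum_const, bsum_mul_right, ← hB] at h2
      calc _ ≤ (2 ^ (p * s) * 1 + B * 2 ^ s) * 2 ^ s := Nat.mul_le_mul_right _ h2
        _ ≤ (2 ^ (p * s) * 1 + p * 2 ^ (p * s)) * 2 ^ s :=
          Nat.mul_le_mul_right _ (Nat.add_le_add_left ih _)
        _ = (p + 1) * 2 ^ (s + p * s) := by rw [pow_add]; ring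
    · push Not at h1
      have h0 : ∃ w, w.length = p ∧ ¬ k ∣ c (false :: w) := by
        obtain ⟨w, hw, hc⟩ := h
        match w, hw, hc with
        | false :: w, hw, hc => exact ⟨w, by simpa using hw, hc⟩
        | true :: w, hw, hc => exact absurd (h1 w (by simpa using hw)) hc
      have ih := schwartz_zippel hk hs p (fun w => c (false :: w)) h0
      have h2 : bsum (p * s) (fun r => bsum s (fun u =>
          (decide (k ∣ zpoly s p (fun w => c (false :: w)) r +
          valB u * zpoly s p (fun w => c (true :: w)) r)).toNat)) =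
          bsum (p * s) (fun r => 2 ^ s *
            (decide (k ∣ zpoly s p (fun w => c (false :: w)) r)).toNat) := by
        refine bsum_congr fun r _ => ?_
        rw [← bsum_const]
        refine bsum_congr fun u _ => ?_
        have h3 : k ∣ zpoly s p (fun w => c (true :: w)) r := by
          rw [← Nat.modEq_zero_iff_dvd]
          unfold zpoly
          refine (bsum_modEq (g := fun _ => 0) fun w hw => ?_).trans (by rw [bsum_const]; rfl)
          rw [Nat.modEq_zero_iff_dvd]
          exact (h1 w hw).mul_right _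
        congr 1
        rw [decide_eq_decide]
        exact Nat.dvd_add_iff_left (h3.mul_left _) |>.symm
      rw [h2, bsum_mul_left]
      calc _ = 2 ^ s * (bsum (p * s)
            (fun r => (decide (k ∣ zpoly s p (fun w => c (false :: w)) r)).toNat) * 2 ^ s) := by
            ring
        _ ≤ 2 ^ s * (p * 2 ^ (p * s)) := Nat.mul_le_mul_left _ ih
        _ = p * 2 ^ (s + p * s) := by rw [pow_add]; ring
        _ ≤ (p + 1) * 2 ^ (s + p * s) := Nat.mul_le_mul_right _ (by omega)

theorem bsum_pos_iff : ∀ (n : ℕ) (P : List Bool → Bool),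
    0 < bsum n (fun w => (P w).toNat) ↔ ∃ w, w.length = n ∧ P w = true
  | 0, P => by
    rw [bsum_zero]
    constructor
    · intro h
      refine ⟨[], rfl, ?_⟩
      cases h' : P []
      · rw [h'] at h; simp at h
      · rfl
    · rintro ⟨w, hw, h⟩
      rw [List.length_eq_zero_iff] at hw
      subst hw
      rw [h]; simp
  | n + 1, P => by
    rw [bsum_succ, Nat.add_pos_iff_pos_or_pos, bsum_pos_iff n (fun w => P (false :: w)),
      bsum_pos_iff n (fun w => P (true :: w))]
    constructor
    · rintro (⟨w, hw, h⟩ | ⟨w, hw, h⟩)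
      · exact ⟨_, by simp [hw], h⟩
      · exact ⟨_, by simp [hw], h⟩
    · rintro ⟨w, hw, h⟩
      match w, hw, h with
      | false :: w, hw, h => exact Or.inl ⟨w, by simpa using hw, h⟩
      | true :: w, hw, h => exact Or.inr ⟨w, by simpa using hw, h⟩

/-- Existence of a certificate of length `p`. -/
def exB (p : ℕ) (P : List Bool → Bool) : Bool := decide (0 < bsum p (fun w => (P w).toNat))

theorem exB_iff (p : ℕ) (P : List Bool → Bool) :
    exB p P = true ↔ ∃ w, w.length = p ∧ P w = true := by
  rw [exB, decide_eq_true_eq, bsum_pos_iff]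

/-- **The arithmetic of the reduction.** -/
theorem count_exists_eq (R : List Bool → List Bool → Bool) {q p s t k M : ℕ} (hk : k.Prime)
    (hps : 2 * p ≤ 2 ^ s) (hs : 2 ^ s ≤ k) (ht : q < t) (hM : q + p * s * t < M) :
    bsum q (fun y => (exB p (R y)).toNat) =
      2 ^ q - (bsum q (fun y => (bsum (p * s) (fun r =>
        gadget k M (zpoly s p (fun w => (R y w).toNat) r))) ^ t) % k ^ M) / 2 ^ (p * s * t) := by
  set c : List Bool → ℕ := fun y => bsum (p * s) (fun r =>
    (decide (k ∣ zpoly s p (fun w => (R y w).toNat) r)).toNat) with hc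
  set N := bsum q (fun y => (exB p (R y)).toNat) with hN
  set D := 2 ^ (p * s * t) with hD
  have hDpos : 0 < D := pow_pos (by norm_num) _
  -- the sum modulo `k ^ M`
  have h1 : bsum q (fun y => (bsum (p * s) (fun r =>
        gadget k M (zpoly s p (fun w => (R y w).toNat) r))) ^ t) ≡
        bsum q (fun y => c y ^ t) [MOD k ^ M] := by
    refine bsum_modEq fun y _ => Nat.ModEq.pow t ?_
    refine bsum_modEq fun r _ => ?_
    by_cases h : k ∣ zpoly s p (fun w => (R y w).toNat) r
    · simp only [h, decide_true, Bool.toNat_true]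
      exact gadget_of_dvd hk h
    · simp only [h, decide_false, Bool.toNat_false]
      exact gadget_of_not_dvd hk h
  -- the values of `c`
  have hbad : ∀ y, exB p (R y) = false → c y ^ t = D := by
    intro y hy
    have h2 : c y = 2 ^ (p * s) := by
      have h3 : ∀ r, r.length = p * s → (decide (k ∣ zpoly s p (fun w => (R y w).toNat) r)).toNat =
          1 := by
        intro r _
        have h4 : zpoly s p (fun w => (R y w).toNat) r = 0 := by
          unfold zpoly
          have : bsum p (fun w => (R y w).toNat * mono s w r) = bsum p (fun _ => 0) := by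
            refine bsum_congr fun w hw => ?_
            cases h5 : R y w
            · simp
            · exfalso
              have : exB p (R y) = true := (exB_iff _ _).2 ⟨w, hw, h5⟩
              rw [hy] at this
              exact Bool.noConfusion this
          rw [this, bsum_const, mul_zero]
        simp [h4]
      rw [hc]
      simp only
      rw [bsum_congr h3, bsum_const, mul_one]
    rw [h2, ← pow_mul]
  have hgood : ∀ y, exB p (R y) = true → c y ^ t * 2 ^ t ≤ D := by
    intro y hy
    obtain ⟨w, hw, hRw⟩ := (exB_iff _ _).1 hy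
    have h2 := schwartz_zippel hk hs p (fun w => (R y w).toNat) ⟨w, hw, by
      rw [hRw]
      simp only [Bool.toNat_true, Nat.dvd_one]
      exact hk.one_lt.ne'⟩
    have h3 : c y * 2 ≤ 2 ^ (p * s) := by
      rcases Nat.eq_zero_or_pos p with hp | hp
      · subst hp
        simp only [zero_mul, pow_zero] at h2 ⊢
        have h4 : c y * 2 ^ s ≤ 0 := by simpa [hc] using h2
        have h5 : c y = 0 := by
          have := pow_pos (show 0 < 2 by norm_num) s
          rcases Nat.mul_eq_zero.1 (Nat.le_zero.1 h4) with h | h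
          · exact h
          · omega
        omega
      · have h4 : c y * (2 * p) ≤ p * 2 ^ (p * s) := (Nat.mul_le_mul_left _ hps).trans h2
        have h5 : p * (c y * 2) ≤ p * 2 ^ (p * s) := by
          calc p * (c y * 2) = c y * (2 * p) := by ring
            _ ≤ _ := h4
        exact Nat.le_of_mul_le_mul_left h5 hp
    rw [← mul_pow, hD, pow_mul]
    exact Nat.pow_le_pow_left h3 t
  -- the errors
  set E := bsum q (fun y => (exB p (R y)).toNat * c y ^ t) with hE
  have h2 : bsum q (fun y => c y ^ t) + N * D = 2 ^ q * D + E := by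
    rw [hN, hE, ← bsum_mul_right, ← bsum_add, ← bsum_const, ← bsum_add]
    refine bsum_congr fun y _ => ?_
    cases h : exB p (R y)
    · rw [hbad y h]
    · simp; omega
  have h3 : E * 2 ^ t ≤ 2 ^ q * D := by
    rw [hE, ← bsum_mul_right, ← bsum_const]
    refine bsum_le fun y _ => ?_
    cases h : exB p (R y)
    · simp
    · simpa using hgood y h
  have h4 : E < D := by
    have h5 : 2 ^ q < 2 ^ t := Nat.pow_lt_pow_right (by norm_num) ht
    have h6 : E * 2 ^ t < D * 2 ^ t := by
      calc E * 2 ^ t ≤ 2 ^ q * D := h3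
        _ < 2 ^ t * D := Nat.mul_lt_mul_of_pos_right h5 hDpos
        _ = D * 2 ^ t := mul_comm _ _
    exact Nat.lt_of_mul_lt_mul_right h6
  have h5 : N ≤ 2 ^ q := by
    have : N ≤ bsum q (fun _ => 1) := bsum_le fun y _ => Bool.toNat_le _
    rwa [bsum_const, mul_one] at this
  have h6 : bsum q (fun y => c y ^ t) = (2 ^ q - N) * D + E := by
    have h7 : (2 ^ q - N) * D + N * D = 2 ^ q * D := by
      rw [← Nat.add_mul, Nat.sub_add_cancel h5]
    omega
  have h7 : bsum q (fun y => c y ^ t) < k ^ M := by
    have h8 : bsum q (fun y => c y ^ t) ≤ bsum q (fun _ => D) := by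
      refine bsum_le fun y _ => ?_
      cases h : exB p (R y)
      · rw [hbad y h]
      · have := hgood y h
        have h9 := pow_pos (show 0 < 2 by norm_num) t
        nlinarith
    rw [bsum_const] at h8
    calc _ ≤ 2 ^ q * D := h8
      _ = 2 ^ (q + p * s * t) := by rw [hD, ← pow_add]
      _ < 2 ^ M := Nat.pow_lt_pow_right (by norm_num) hM
      _ ≤ k ^ M := Nat.pow_le_pow_left hk.two_le M
  have h8 : bsum q (fun y => (bsum (p * s) (fun r =>
        gadget k M (zpoly s p (fun w => (R y w).toNat) r))) ^ t) % k ^ M =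
        bsum q (fun y => c y ^ t) := by
    rw [h1]
    exact Nat.mod_eq_of_lt h7
  rw [h8, h6, mul_comm, Nat.mul_add_div hDpos, Nat.div_eq_of_lt h4]
  omega

end Pool.Agent.NPC.Cnt
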