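import Pool.Agent.H527R2.UniP
import Pool.Agent.H671R2.PolyAuto

/-!
# Sums over all bit strings of a given length
-/

namespace Pool.Agent.NPC.Cnt

/-- Sum of `f` over all bit strings of length `n`. -/
def bsum : ℕ → (List Bool → ℕ) → ℕ
  | 0, f => f []
  | n + 1, f => bsum n (fun w => f (false :: w)) + bsum n (fun w => f (true :: w))

theorem bsum_zero (f : List Bool → ℕ) : bsum 0 f = f [] := rfl

theorem bsum_succ (n : ℕ) (f : List Bool → ℕ) :
    bsum (n + 1) f = bsum n (fun w => f (false :: w)) + bsum n (fun w => f (true :: w)) := rfl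

theorem bsum_congr : ∀ {n : ℕ} {f g : List Bool → ℕ}, (∀ w, w.length = n → f w = g w) →
    bsum n f = bsum n g
  | 0, f, g, h => h [] rfl
  | n + 1, f, g, h => by
    rw [bsum_succ, bsum_succ, bsum_congr (fun w hw => h (false :: w) (by simp [hw])),
      bsum_congr (fun w hw => h (true :: w) (by simp [hw]))]

theorem bsum_const : ∀ (n c : ℕ), bsum n (fun _ => c) = 2 ^ n * c
  | 0, c => by simp [bsum_zero]
  | n + 1, c => by rw [bsum_succ, bsum_const n c, pow_succ]; ring

theorem bsum_le : ∀ {n : ℕ} {f g : List Bool → ℕ}, (∀ w, w.length = n → f w ≤ g w) →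
    bsum n f ≤ bsum n g
  | 0, f, g, h => h [] rfl
  | n + 1, f, g, h => by
    rw [bsum_succ, bsum_succ]
    exact Nat.add_le_add (bsum_le (fun w hw => h (false :: w) (by simp [hw])))
      (bsum_le (fun w hw => h (true :: w) (by simp [hw])))

theorem bsum_modEq {m : ℕ} : ∀ {n : ℕ} {f g : List Bool → ℕ},
    (∀ w, w.length = n → f w ≡ g w [MOD m]) → bsum n f ≡ bsum n g [MOD m]
  | 0, f, g, h => h [] rfl
  | n + 1, f, g, h => by
    rw [bsum_succ, bsum_succ]
    exact Nat.ModEq.add (bsum_modEq (fun w hw => h (false :: w) (by simp [hw])))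
      (bsum_modEq (fun w hw => h (true :: w) (by simp [hw])))

theorem bsum_append : ∀ (m n : ℕ) (f : List Bool → ℕ),
    bsum (m + n) f = bsum m (fun u => bsum n (fun v => f (u ++ v)))
  | 0, n, f => by rw [Nat.zero_add]; rfl
  | m + 1, n, f => by
    rw [Nat.add_right_comm, bsum_succ, bsum_succ, bsum_append m n, bsum_append m n]
    rfl

theorem bsum_mul_left (c : ℕ) : ∀ (n : ℕ) (f : List Bool → ℕ),
    bsum n (fun w => c * f w) = c * bsum n f
  | 0, f => rfl
  | n + 1, f => by rw [bsum_succ, bsum_succ, bsum_mul_left c n, bsum_mul_left c n, mul_add]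

theorem bsum_mul_right (c : ℕ) (n : ℕ) (f : List Bool → ℕ) :
    bsum n (fun w => f w * c) = bsum n f * c := by
  rw [mul_comm, ← bsum_mul_left]
  exact bsum_congr fun w _ => mul_comm _ _

theorem bsum_add : ∀ (n : ℕ) (f g : List Bool → ℕ),
    bsum n (fun w => f w + g w) = bsum n f + bsum n g
  | 0, f, g => rfl
  | n + 1, f, g => by
    rw [bsum_succ, bsum_succ, bsum_succ, bsum_add n, bsum_add n]
    omega

theorem bsum_comm (m : ℕ) : ∀ (n : ℕ) (f : List Bool → List Bool → ℕ),
    bsum m (fun u => bsum n (fun v => f u v)) = bsum n (fun v => bsum m (fun u => f u v))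
  | 0, f => rfl
  | n + 1, f => by
    simp only [bsum_succ]
    rw [bsum_add, bsum_comm m n, bsum_comm m n]

theorem bsum_eq_card : ∀ (n : ℕ) (P : List Bool → Bool),
    bsum n (fun w => (P w).toNat) = Nat.card {w : List Bool // w.length = n ∧ P w = true}
  | 0, P => by
    rw [bsum_zero]
    cases h : P []
    · symm
      rw [Bool.toNat_false, Nat.card_eq_zero]
      left
      refine ⟨fun ⟨w, h1, h2⟩ => ?_⟩
      rw [List.length_eq_zero_iff] at h1
      subst h1
      rw [h] at h2
      exact Bool.noConfusion h2
    · symm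
      rw [Bool.toNat_true, Nat.card_eq_one_iff_unique]
      refine ⟨⟨fun a b => ?_⟩, ⟨[], rfl, h⟩⟩
      apply Subtype.ext
      rw [List.length_eq_zero_iff.1 a.2.1, List.length_eq_zero_iff.1 b.2.1]
  | n + 1, P => by
    have hfin : ∀ (n : ℕ) (P : List Bool → Bool),
        Finite {w : List Bool // w.length = n ∧ P w = true} := by
      intro n P
      have : Finite {w : List Bool // w.length = n} := List.finite_length_eq Bool n
      exact Finite.of_injective (fun w : {w : List Bool // w.length = n ∧ P w = true} =>
        (⟨w.1, w.2.1⟩ : {w : List Bool // w.length = n})) (fun a b h => by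
          simp only [Subtype.mk.injEq] at h
          exact Subtype.ext h)
    have h1 := hfin n (fun w => P (false :: w))
    have h2 := hfin n (fun w => P (true :: w))
    rw [bsum_succ, bsum_eq_card n (fun w => P (false :: w)),
      bsum_eq_card n (fun w => P (true :: w)), ← Nat.card_sum]
    refine Nat.card_congr ⟨fun s => ?_, fun w => ?_, ?_, ?_⟩
    · exact s.elim (fun w => ⟨false :: w.1, by simp [w.2.1], w.2.2⟩)
        (fun w => ⟨true :: w.1, by simp [w.2.1], w.2.2⟩)
    · obtain ⟨w, hw1, hw2⟩ := w
      match w, hw1, hw2 with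
      | [], hw1, _ => exact absurd hw1 (by simp)
      | false :: w, hw1, hw2 => exact Sum.inl ⟨w, by simpa using hw1, hw2⟩
      | true :: w, hw1, hw2 => exact Sum.inr ⟨w, by simpa using hw1, hw2⟩
    · rintro (⟨w, _, _⟩ | ⟨w, _, _⟩) <;> rfl
    · rintro ⟨w, hw1, hw2⟩
      match w, hw1, hw2 with
      | [], hw1, _ => exact absurd hw1 (by simp)
      | false :: w, hw1, hw2 => rfl
      | true :: w, hw1, hw2 => rfl

theorem bsum_valB_lt : ∀ (n m : ℕ),
    bsum n (fun w => (decide (valB w < m)).toNat) = min m (2 ^ n)
  | 0, m => by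
    rw [bsum_zero, valB_nil]
    by_cases h : 0 < m
    · simp [h]; omega
    · have : m = 0 := by omega
      subst this; simp
  | n + 1, m => by
    rw [bsum_succ]
    have e1 : bsum n (fun w => (decide (valB (false :: w) < m)).toNat) =
        bsum n (fun w => (decide (valB w < (m + 1) / 2)).toNat) :=
      bsum_congr fun w _ => by
        congr 1
        rw [decide_eq_decide, valB_cons]
        simp only [Bool.false_eq_true, if_false]
        omega
    have e2 : bsum n (fun w => (decide (valB (true :: w) < m)).toNat) =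
        bsum n (fun w => (decide (valB w < m / 2)).toNat) :=
      bsum_congr fun w _ => by
        congr 1
        rw [decide_eq_decide, valB_cons]
        simp only [if_true]
        omega
    rw [e1, e2, bsum_valB_lt n, bsum_valB_lt n, pow_succ]
    omega

/-- Only the string of zeros. -/
theorem bsum_all_false : ∀ (n : ℕ), bsum n (fun w => (w.all (fun b => !b)).toNat) = 1
  | 0 => rfl
  | n + 1 => by
    rw [bsum_succ]
    have e1 : bsum n (fun w => ((false :: w).all (fun b => !b)).toNat) = 1 := by
      rw [← bsum_all_false n]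
      exact bsum_congr fun w _ => by simp
    have e2 : bsum n (fun w => ((true :: w).all (fun b => !b)).toNat) = 0 := by
      have : bsum n (fun _ => 0) = 0 := by rw [bsum_const]; simp
      rw [← this]
      exact bsum_congr fun w _ => by simp
    rw [e1, e2]

/-- Padding of the certificates with zeros. -/
def padR (L : ℕ) (R : List Bool → Bool) (w : List Bool) : Bool :=
  R (w.take L) && (w.drop L).all (fun b => !b)

theorem bsum_padR {L B : ℕ} (h : L ≤ B) (R : List Bool → Bool) :
    bsum B (fun w => (padR L R w).toNat) = bsum L (fun w => (R w).toNat) := by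
  obtain ⟨d, rfl⟩ := Nat.exists_eq_add_of_le h
  rw [bsum_append]
  refine bsum_congr fun u hu => ?_
  have e : bsum d (fun v => (padR L R (u ++ v)).toNat) =
      bsum d (fun v => (R u).toNat * (v.all (fun b => !b)).toNat) :=
    bsum_congr fun v _ => by
      unfold padR
      rw [List.take_left' hu, List.drop_left' hu]
      cases R u <;> simp
  rw [e, bsum_mul_left, bsum_all_false, mul_one]

end Pool.Agent.NPC.Cnt
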