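import Pool.Agent.H527R3.Toda.BSum

/-!
# A calculus of `#P` functions on typed data
-/

namespace Pool.Agent.NPC.Cnt

variable {α β : Type} [TEnc α] [TEnc β]

theorem take_eq_tk {β : Type} (l : List β) (k : ℕ) :
    (l.zipIdx.filter (fun q => decide (q.2 < k))).map (fun q => q.1) = l.take k := by
  have e1 : ∀ q ∈ (l.take k).zipIdx, q.2 < k := by
    intro q hq
    rw [List.mem_zipIdx_iff_getElem?] at hq
    by_contra hlt
    rw [List.getElem?_eq_none (by rw [List.length_take]; omega)] at hq
    simp at hq
  by_cases hk : k ≤ l.length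
  · have e2 : ∀ q ∈ (l.drop k).zipIdx (0 + (l.take k).length), ¬ q.2 < k := by
      intro q hq
      have := List.le_snd_of_mem_zipIdx (x := q) hq
      rw [List.length_take] at this
      omega
    conv_lhs => rw [← List.take_append_drop k l]
    rw [List.zipIdx_append, List.filter_append]
    have f1 : (l.take k).zipIdx.filter (fun q => decide (q.2 < k)) = (l.take k).zipIdx := by
      rw [List.filter_eq_self]
      intro q hq
      simpa using e1 q hq
    have f2 : ((l.drop k).zipIdx (0 + (l.take k).length)).filter (fun q => decide (q.2 < k)) =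
        [] := by
      rw [List.filter_eq_nil_iff]
      intro q hq
      simpa using e2 q hq
    rw [f1, f2, List.append_nil]
    exact List.zipIdx_map_fst 0 _
  · rw [List.take_of_length_le (by omega)] at e1 ⊢
    have f1 : l.zipIdx.filter (fun q => decide (q.2 < k)) = l.zipIdx := by
      rw [List.filter_eq_self]
      intro q hq
      simpa using e1 q hq
    rw [f1]
    exact List.zipIdx_map_fst 0 _

@[fun_prop]
theorem poly_tk {l : α → List β} {k : α → ℕ} (hl : Poly l)
    (hk : Poly k) : Poly (fun a => (l a).take (k a)) :=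
  (Poly.map (F := fun _ q => q.1) (Poly.filter (p := fun a (q : β × ℕ) => decide (q.2 < k a))
      (Poly.zipIdx hl) (Poly.decide_lt (Poly.snd (Poly.snd Poly.id))
        (hk.comp (Poly.fst Poly.id)))) (Poly.fst (Poly.snd Poly.id))).congr fun a => take_eq_tk _ _

@[fun_prop]
theorem poly_dp {l : α → List β} {k : α → ℕ} (hl : Poly l)
    (hk : Poly k) : Poly (fun a => (l a).drop (k a)) :=
  (Poly.reverse (poly_tk (Poly.reverse hl) (Poly.sub (Poly.length hl) hk))).congr fun a => by
    have _ := a
    rw [List.take_reverse, List.reverse_reverse]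
    by_cases h : k a ≤ (l a).length
    · congr 1
      omega
    · rw [List.drop_of_length_le (by omega), List.drop_of_length_le (by omega)]

theorem poly_bits : Poly (fun a : α => bits a) :=
  poly_enc.comp (f := fun a : α => toT a) (Poly.toT' Poly.id)

theorem upoly_sz : UPoly (fun a : α => sz a) :=
  (UPoly.length (poly_bits (α := α))).congr fun a => by beta_reduce; rw [bits_length]

theorem upoly_le_eval {L : α → ℕ} (hL : UPoly L) : ∃ r : Polynomial ℕ, ∀ a, L a ≤ r.eval (sz a) := by
  obtain ⟨r, hr⟩ := Poly.sz_le hL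
  refine ⟨r, fun a => ?_⟩
  have h1 := hr a
  have h2 := length_lt_sz (List.replicate (L a) ())
  rw [List.length_replicate] at h2
  omega

/-- `f` counts the certificates, bit strings of a length polynomial in the input, accepted by a
polynomial-time test. -/
def CountP (f : α → ℕ) : Prop :=
  ∃ (R : α × List Bool → Bool) (L : α → ℕ), Poly R ∧ UPoly L ∧
    ∀ a, f a = bsum (L a) (fun w => (R (a, w)).toNat)

theorem CountP.congr {f g : α → ℕ} (hf : CountP f) (h : ∀ a, f a = g a) : CountP g := by
  obtain ⟨R, L, hR, hL, hf⟩ := hf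
  exact ⟨R, L, hR, hL, fun a => by rw [← h, hf]⟩

theorem CountP.comp {f : β → ℕ} {g : α → β} (hf : CountP f) (hg : Poly g) :
    CountP (fun a => f (g a)) := by
  obtain ⟨R, L, hR, hL, hf⟩ := hf
  refine ⟨fun x => R (g x.1, x.2), fun a => L (g a), ?_, hL.comp hg, fun a => hf _⟩
  exact hR.comp (Poly.pair (hg.comp (Poly.fst Poly.id)) (Poly.snd Poly.id))

/-- The normal form: certificates of any sufficiently large length. -/
theorem CountP.normal {f : α → ℕ} (hf : CountP f) :
    ∃ (R : α × List Bool → Bool) (r : Polynomial ℕ), Poly R ∧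
      ∀ a B, r.eval (sz a) ≤ B → f a = bsum B (fun w => (R (a, w)).toNat) := by
  obtain ⟨R, L, hR, hL, hf⟩ := hf
  obtain ⟨r, hr⟩ := upoly_le_eval hL
  refine ⟨fun x => padR (L x.1) (fun u => R (x.1, u)) x.2, r, ?_, fun a B hB => ?_⟩
  · unfold padR
    have hL' := hL.toPoly
    have h1 : Poly (fun x : α × List Bool => L x.1) := hL'.comp (Poly.fst Poly.id)
    refine Poly.and (hR.comp (Poly.pair (Poly.fst Poly.id) (poly_tk (Poly.snd Poly.id) h1))) ?_
    exact Poly.all (p := fun (_ : α × List Bool) b => !b) (poly_dp (Poly.snd Poly.id) h1)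
      (Poly.not (Poly.snd Poly.id))
  · have e := bsum_padR ((hr a).trans hB) (fun u => R (a, u))
    rw [← hf] at e
    exact e.symm

theorem CountP.ofPoly {f : α → ℕ} (hf : Poly f) : CountP f := by
  refine ⟨fun x => decide (valB x.2 < f x.1), fun a => (f a).bits.length, ?_,
    UPoly.length hf.natBits, fun a => ?_⟩
  · exact Poly.decide_lt (Poly.valBits (Poly.snd Poly.id)) (hf.comp (Poly.fst Poly.id))
  · have e := bsum_valB_lt (f a).bits.length (f a)
    have h1 := Nat.lt_size_self (f a)
    rw [← Nat.size_eq_bits_len] at h1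
    rw [min_eq_left (by omega)] at e
    exact e.symm

theorem CountP.const (c : ℕ) : CountP (fun _ : α => c) := CountP.ofPoly (Poly.const c)

theorem CountP.add {f g : α → ℕ} (hf : CountP f) (hg : CountP g) :
    CountP (fun a => f a + g a) := by
  obtain ⟨R, r, hR, hf⟩ := hf.normal
  obtain ⟨R', r', hR', hg⟩ := hg.normal
  refine ⟨fun x => bif x.2.head?.getD false then R' (x.1, x.2.tail) else R (x.1, x.2.tail),
    fun a => (r.eval (sz a) + r'.eval (sz a)) + 1, ?_, ?_, fun a => ?_⟩
  · have h1 : Poly (fun x : α × List Bool => (x.1, x.2.tail)) :=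
      Poly.pair (Poly.fst Poly.id) (Poly.tail (Poly.snd Poly.id))
    exact Poly.cond (Poly.head?_getD (Poly.snd Poly.id) false) (hR'.comp h1) (hR.comp h1)
  · exact UPoly.add (UPoly.add (upoly_sz.eval r) (upoly_sz.eval r')) (UPoly.const 1)
  · beta_reduce
    rw [bsum_succ, hf a (r.eval (sz a) + r'.eval (sz a)) (by omega),
      hg a (r.eval (sz a) + r'.eval (sz a)) (by omega)]
    simp

theorem CountP.mul {f g : α → ℕ} (hf : CountP f) (hg : CountP g) :
    CountP (fun a => f a * g a) := by
  obtain ⟨R, r, hR, hf⟩ := hf.normal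
  obtain ⟨R', r', hR', hg⟩ := hg.normal
  refine ⟨fun x => R (x.1, x.2.take (r.eval (sz x.1))) && R' (x.1, x.2.drop (r.eval (sz x.1))),
    fun a => r.eval (sz a) + r'.eval (sz a), ?_, ?_, fun a => ?_⟩
  · have h0 : Poly (fun x : α × List Bool => r.eval (sz x.1)) :=
      (upoly_sz.eval r).toPoly.comp (Poly.fst Poly.id)
    exact Poly.and (hR.comp (Poly.pair (Poly.fst Poly.id) (poly_tk (Poly.snd Poly.id) h0)))
      (hR'.comp (Poly.pair (Poly.fst Poly.id) (poly_dp (Poly.snd Poly.id) h0)))
  · exact UPoly.add (upoly_sz.eval r) (upoly_sz.eval r')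
  · beta_reduce
    rw [bsum_append, hf a _ le_rfl, hg a _ le_rfl]
    rw [← bsum_mul_right]
    refine bsum_congr fun u hu => ?_
    rw [← bsum_mul_left]
    refine bsum_congr fun v hv => ?_
    simp only [List.take_left' hu, List.drop_left' hu]
    cases R (a, u) <;> simp

theorem bsum_blocks (B : ℕ) (P : List Bool → Bool) : ∀ n : ℕ,
    bsum (n * B) (fun w => ((List.range n).all (fun i => P ((w.drop (i * B)).take B))).toNat) =
      (bsum B (fun w => (P w).toNat)) ^ n
  | 0 => by simp [bsum_zero]
  | n + 1 => by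
    rw [Nat.add_mul, one_mul, bsum_append, pow_succ, ← bsum_blocks B P n, ← bsum_mul_right]
    refine bsum_congr fun u hu => ?_
    rw [← bsum_mul_left]
    refine bsum_congr fun v hv => ?_
    rw [List.range_succ, List.all_append]
    have e1 : (List.range n).all (fun i => P (((u ++ v).drop (i * B)).take B)) =
        (List.range n).all (fun i => P ((u.drop (i * B)).take B)) := by
      rw [Bool.eq_iff_iff, List.all_eq_true, List.all_eq_true]
      refine forall₂_congr fun i hi => ?_
      rw [List.mem_range] at hi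
      have h1 : (i + 1) * B ≤ n * B := Nat.mul_le_mul_right B hi
      rw [Nat.add_mul, one_mul] at h1
      rw [List.drop_append_of_le_length (by omega), List.take_append_of_le_length (by
        rw [List.length_drop]; omega)]
    have e2 : [n].all (fun i => P (((u ++ v).drop (i * B)).take B)) = P v := by
      rw [List.all_cons, List.all_nil, Bool.and_true, List.drop_left' hu,
        List.take_of_length_le (by omega)]
    rw [e1, e2]
    cases P v <;> simp

theorem CountP.pow {f : α → ℕ} {n : α → ℕ} (hf : CountP f) (hn : UPoly n) :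
    CountP (fun a => f a ^ n a) := by
  obtain ⟨R, r, hR, hf⟩ := hf.normal
  refine ⟨fun x => (List.range (n x.1)).all (fun i =>
      R (x.1, (x.2.drop (i * r.eval (sz x.1))).take (r.eval (sz x.1)))),
    fun a => n a * r.eval (sz a), ?_, UPoly.mul hn (upoly_sz.eval r), fun a => ?_⟩
  · have hn' : Poly (fun x : α × List Bool => List.range (n x.1)) :=
      hn.range.comp (Poly.fst Poly.id)
    have h0 : Poly (fun x : (α × List Bool) × ℕ => r.eval (sz x.1.1)) :=
      (upoly_sz.eval r).toPoly.comp (Poly.fst (Poly.fst Poly.id))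
    refine Poly.all (p := fun (x : α × List Bool) i =>
      R (x.1, (x.2.drop (i * r.eval (sz x.1))).take (r.eval (sz x.1)))) hn' ?_
    exact hR.comp (Poly.pair (Poly.fst (Poly.fst Poly.id)) (poly_tk (poly_dp
      (Poly.snd (Poly.fst Poly.id)) (Poly.mul (Poly.snd Poly.id) h0)) h0))
  · beta_reduce
    rw [hf a _ le_rfl, ← bsum_blocks]

theorem CountP.bsum {f : α × List Bool → ℕ} {n : α → ℕ} (hf : CountP f) (hn : UPoly n) :
    CountP (fun a => bsum (n a) (fun y => f (a, y))) := by
  obtain ⟨R, r, hR, hf⟩ := hf.normal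
  refine ⟨fun x => R ((x.1, x.2.take (n x.1)), x.2.drop (n x.1)),
    fun a => n a + r.eval (sz a + (4 * n a + 2)), ?_, ?_, fun a => ?_⟩
  · have hn' : Poly (fun x : α × List Bool => n x.1) := hn.toPoly.comp (Poly.fst Poly.id)
    exact hR.comp (Poly.pair (Poly.pair (Poly.fst Poly.id) (poly_tk (Poly.snd Poly.id) hn'))
      (poly_dp (Poly.snd Poly.id) hn'))
  · exact UPoly.add hn ((UPoly.add upoly_sz (UPoly.add (UPoly.mul (UPoly.const 4) hn)
      (UPoly.const 2))).eval r)
  · beta_reduce
    rw [bsum_append]
    refine bsum_congr fun y hy => ?_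
    have h1 := sz_listBool_le y
    have h2 : sz (a, y) ≤ sz a + (4 * n a + 2) := by
      rw [sz_pair]
      omega
    rw [hf (a, y) _ (eval_mono r h2)]
    refine bsum_congr fun v hv => ?_
    simp only [List.take_left' hy, List.drop_left' hy]

theorem CountP.bound {f : α → ℕ} (hf : CountP f) :
    ∃ r : Polynomial ℕ, ∀ a, f a ≤ 2 ^ r.eval (sz a) := by
  obtain ⟨R, r, _, hf⟩ := hf.normal
  refine ⟨r, fun a => ?_⟩
  rw [hf a _ le_rfl]
  refine (bsum_le (g := fun _ => 1) fun w _ => Bool.toNat_le _).trans ?_
  rw [bsum_const, mul_one]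

theorem CountP.size_bound {f : α → ℕ} (hf : CountP f) :
    ∃ r : Polynomial ℕ, ∀ a, (f a).size ≤ r.eval (sz a) := by
  obtain ⟨r, hr⟩ := hf.bound
  refine ⟨r + Polynomial.C 1, fun a => ?_⟩
  rw [Polynomial.eval_add, Polynomial.eval_C, Nat.size_le]
  have := hr a
  have h2 : 2 ^ r.eval (sz a) < 2 ^ (r.eval (sz a) + 1) := Nat.pow_lt_pow_right (by norm_num)
    (by omega)
  omega

/-- Functions in the calculus are in `#P`. -/
theorem CountP.sharpP [TDec α] {f : α → ℕ} (hf : CountP f) : SharpP (strFn f) := by
  obtain ⟨R, L, hR, hL, hf⟩ := hf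
  obtain ⟨r, hr⟩ := upoly_le_eval hL
  have h := sharpP_typed (α := α) (γ := List Bool)
    (fun a w => decide (w.length = L a) && R (a, w)) ?_ (Polynomial.C 4 * r + Polynomial.C 1) ?_
  · have e : (fun a => Nat.card {c : List Bool // (decide (c.length = L a) && R (a, c)) = true}) =
        f := by
      funext a
      rw [hf, bsum_eq_card]
      refine Nat.card_congr (Equiv.subtypeEquivRight fun w => ?_)
      rw [Bool.and_eq_true, decide_eq_true_eq]
    rw [e] at h
    exact h
  · exact Poly.and (Poly.decide_eq (Poly.length (Poly.snd Poly.id))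
      (hL.toPoly.comp (Poly.fst Poly.id))) hR
  · intro a w hw
    rw [Bool.and_eq_true, decide_eq_true_eq] at hw
    have h1 := sz_listBool_le w
    have h2 := hr a
    rw [Polynomial.eval_add, Polynomial.eval_mul, Polynomial.eval_C, Polynomial.eval_C]
    omega

end Pool.Agent.NPC.Cnt
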