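import Pool.Agent.H527R3.Toda.CountP
import Pool.Agent.H527R3.Toda.Arith

/-!
# `#·NP` is contained in `FP^#P`
-/

namespace Pool.Agent.NPC.Cnt

variable {α β : Type} [TEnc α] [TEnc β]

/-! ### The monomials -/

theorem mono_eq (s : ℕ) : ∀ (w r : List Bool), mono s w r =
    ((List.range w.length).map (fun i => if w.getD i false = true then
      valB ((r.drop (i * s)).take s) else 1)).prod
  | [], r => by simp [mono]
  | b :: w, r => by
    rw [mono, mono_eq s w, List.length_cons, List.range_succ_eq_map, List.map_cons,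
      List.prod_cons, List.map_map]
    congr 1
    · simp
    · congr 1
      refine List.map_congr_left fun i _ => ?_
      simp only [Function.comp, List.getD_cons_succ, List.drop_drop, Nat.succ_eq_add_one]
      rw [show s + i * s = (i + 1) * s by ring]

theorem poly_mono {s : α → ℕ} {w r : α → List Bool} (hs : Poly s) (hw : Poly w) (hr : Poly r) :
    Poly (fun a => mono (s a) (w a) (r a)) := by
  have h : Poly (fun a => ((List.range (w a).length).map (fun i =>
      if (w a).getD i false = true then valB (((r a).drop (i * s a)).take (s a)) else 1)).prod) := by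
    refine Uc.poly_prod (Poly.map (F := fun a i => if (w a).getD i false = true then
      valB (((r a).drop (i * s a)).take (s a)) else 1) (Poly.range_length hw) ?_)
    have f1 : Poly (fun x : α × ℕ => x.1) := Poly.fst Poly.id
    have f2 : Poly (fun x : α × ℕ => x.2) := Poly.snd Poly.id
    refine Poly.ite (Poly.decide_bool (Poly.getD (hw.comp f1) f2 (Poly.const false)))
      (Poly.valBits (poly_tk (poly_dp (hr.comp f1) (Poly.mul f2 (hs.comp f1))) (hs.comp f1)))
      (Poly.const 1)
  exact h.congr fun a => (mono_eq _ _ _).symm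

/-! ### A prime modulus -/

/-- Trial division up to `L`. -/
def isPrB (L n : ℕ) : Bool :=
  decide (2 ≤ n) && (List.range L).all (fun d =>
    !(decide (2 ≤ d) && decide (d < n)) || !decide (n % d = 0))

theorem isPrB_iff {L n : ℕ} (h : n ≤ L) : isPrB L n = true ↔ n.Prime := by
  unfold isPrB
  rw [Bool.and_eq_true, decide_eq_true_eq, List.all_eq_true, Nat.prime_def_lt']
  refine and_congr_right fun _ => ⟨fun h1 m hm2 hmn hd => ?_, fun h1 d hd => ?_⟩
  · have := h1 m (List.mem_range.2 (by omega))
    simp [hm2, hmn, Nat.mod_eq_zero_of_dvd hd] at this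
  · by_cases h2 : 2 ≤ d ∧ d < n
    · have h3 := h1 d h2.1 h2.2
      have h4 : n % d ≠ 0 := fun h5 => h3 (Nat.dvd_of_mod_eq_zero h5)
      simp [h4]
    · rw [Bool.or_eq_true]
      left
      simp only [Bool.not_eq_true', Bool.and_eq_false_iff, decide_eq_false_iff_not]
      tauto

/-- A prime between `N` and `2 * N`. -/
def kOf (N : ℕ) : ℕ :=
  ((List.range (2 * N + 1)).filter (fun n => decide (N ≤ n) &&
    isPrB (2 * N + 1) n)).head?.getD 2

theorem kOf_spec {N : ℕ} (hN : 1 ≤ N) : (kOf N).Prime ∧ N ≤ kOf N ∧ kOf N ≤ 2 * N := by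
  obtain ⟨k, hk, h1, h2⟩ := Nat.exists_prime_lt_and_le_two_mul N (by omega)
  have hmem : k ∈ (List.range (2 * N + 1)).filter (fun n => decide (N ≤ n) &&
      isPrB (2 * N + 1) n) := by
    rw [List.mem_filter, List.mem_range, Bool.and_eq_true, decide_eq_true_eq,
      isPrB_iff (by omega)]
    exact ⟨by omega, by omega, hk⟩
  unfold kOf
  generalize hl : (List.range (2 * N + 1)).filter (fun n => decide (N ≤ n) &&
      isPrB (2 * N + 1) n) = l at hmem
  cases l with
  | nil => simp at hmem
  | cons x l =>
    have hx : x ∈ (List.range (2 * N + 1)).filter (fun n => decide (N ≤ n) &&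
        isPrB (2 * N + 1) n) := by rw [hl]; simp
    rw [List.mem_filter, List.mem_range, Bool.and_eq_true, decide_eq_true_eq] at hx
    simp only [List.head?_cons, Option.getD_some]
    exact ⟨(isPrB_iff (by omega)).1 hx.2.2, hx.2.1, by omega⟩

theorem poly_kOf {N : α → ℕ} (hN : UPoly N) : Poly (fun a => kOf (N a)) := by
  unfold kOf isPrB
  have hL : Poly (fun a => List.range (2 * N a + 1)) :=
    (UPoly.add (UPoly.mul (UPoly.const 2) hN) (UPoly.const 1)).range
  refine Poly.head?_getD (Poly.filter (p := fun a n => decide (N a ≤ n) &&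
    (decide (2 ≤ n) && (List.range (2 * N a + 1)).all (fun d =>
    !(decide (2 ≤ d) && decide (d < n)) || !decide (n % d = 0)))) hL ?_) 2
  have g1 : Poly (fun x : α × ℕ => x.1) := Poly.fst Poly.id
  have g2 : Poly (fun x : α × ℕ => x.2) := Poly.snd Poly.id
  refine Poly.and (Poly.decide_le (hN.toPoly.comp g1) g2) (Poly.and
    (Poly.decide_le (Poly.const 2) g2) ?_)
  refine Poly.all (p := fun (x : α × ℕ) d =>
    !(decide (2 ≤ d) && decide (d < x.2)) || !decide (x.2 % d = 0)) (hL.comp g1) ?_
  have e1 : Poly (fun x : (α × ℕ) × ℕ => x.1.2) := Poly.snd (Poly.fst Poly.id)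
  have e2 : Poly (fun x : (α × ℕ) × ℕ => x.2) := Poly.snd Poly.id
  exact Poly.or (Poly.not (Poly.and (Poly.decide_le (Poly.const 2) e2) (Poly.decide_lt e2 e1)))
    (Poly.not (Poly.decide_eq (Poly.mod e1 e2) (Poly.const 0)))

/-! ### The parameters -/

/-- number of bits of a random number -/
def sO (p : ℕ) : ℕ := (2 * p).size

/-- the modulus -/
def kO (p : ℕ) : ℕ := kOf (2 ^ sO p)

/-- the exponent of the modulus -/
def mO (q p : ℕ) : ℕ := q + p * sO p * (q + 1) + 1

theorem two_mul_le_sO (p : ℕ) : 2 * p ≤ 2 ^ sO p := (Nat.lt_size_self _).le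

theorem sO_le (p : ℕ) : 2 ^ sO p ≤ 4 * p + 1 := by
  rcases Nat.eq_zero_or_pos p with hp | hp
  · subst hp; simp [sO]
  · have h1 : 2 ^ ((2 * p).size - 1) ≤ 2 * p := by
      rw [← Nat.lt_size]
      have : 0 < (2 * p).size := Nat.size_pos.2 (by omega)
      omega
    have h2 : 0 < (2 * p).size := Nat.size_pos.2 (by omega)
    have h3 : 2 ^ (2 * p).size = 2 * 2 ^ ((2 * p).size - 1) := by
      rw [← pow_succ']
      congr 1
      omega
    unfold sO
    omega

theorem upoly_sO {p : α → ℕ} (hp : UPoly p) : UPoly (fun a => sO (p a)) := by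
  refine (UPoly.length (Poly.natBits (Poly.mul (Poly.const 2) hp.toPoly))).congr fun a => ?_
  simp only [sO, Nat.size_eq_bits_len]

theorem upoly_two_pow_sO {p : α → ℕ} (hp : UPoly p) : UPoly (fun a => 2 ^ sO (p a)) :=
  UPoly.of_le (Uc.poly_upow (upoly_sO hp) (Poly.const 2))
    (UPoly.add (UPoly.mul (UPoly.const 4) hp) (UPoly.const 1)) (fun a => sO_le _)

theorem kO_spec (p : ℕ) : (kO p).Prime ∧ 2 ^ sO p ≤ kO p ∧ kO p ≤ 2 * 2 ^ sO p :=
  kOf_spec (Nat.one_le_two_pow)

theorem upoly_kO {p : α → ℕ} (hp : UPoly p) : UPoly (fun a => kO (p a)) :=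
  UPoly.of_le (poly_kOf (upoly_two_pow_sO hp)) (UPoly.mul (UPoly.const 2) (upoly_two_pow_sO hp))
    (fun a => (kO_spec (p a)).2.2)

theorem upoly_mO {q p : α → ℕ} (hq : UPoly q) (hp : UPoly p) :
    UPoly (fun a => mO (q a) (p a)) :=
  UPoly.add (UPoly.add hq (UPoly.mul (UPoly.mul hp (upoly_sO hp)) (UPoly.add hq (UPoly.const 1))))
    (UPoly.const 1)

/-! ### The `#P` function -/

theorem countP_gadget {k M z : α → ℕ} (hk : UPoly k) (hM : UPoly M) (hz : CountP z) :
    CountP (fun a => gadget (k a) (M a) (z a)) := by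
  unfold gadget
  refine CountP.pow (CountP.add (CountP.const 1) (CountP.mul (CountP.ofPoly ?_)
    (CountP.pow hz (UPoly.mul (Uc.upoly_sub hk (Poly.const 1)) hM)))) hM
  exact Poly.sub (Uc.poly_upow hM hk.toPoly) (Poly.const 1)

/-- The oracle function. -/
def oracleS (R : α × List Bool × List Bool → Bool) (q p : α → ℕ) (a : α) : ℕ :=
  bsum (q a) (fun y => (bsum (p a * sO (p a)) (fun r =>
    gadget (kO (p a)) (mO (q a) (p a))
      (zpoly (sO (p a)) (p a) (fun w => (R (a, y, w)).toNat) r))) ^ (q a + 1))

theorem countP_oracleS {R : α × List Bool × List Bool → Bool} {q p : α → ℕ} (hR : Poly R)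
    (hq : UPoly q) (hp : UPoly p) : CountP (oracleS R q p) := by
  unfold oracleS zpoly
  have g1 : Poly (fun x : α × List Bool => x.1) := Poly.fst Poly.id
  have g2 : Poly (fun x : (α × List Bool) × List Bool => x.1.1) := Poly.fst (Poly.fst Poly.id)
  have g3 : Poly (fun x : ((α × List Bool) × List Bool) × List Bool => x.1.1.1) :=
    Poly.fst (Poly.fst (Poly.fst Poly.id))
  refine CountP.bsum (f := fun x : α × List Bool => (bsum (p x.1 * sO (p x.1)) (fun r =>
    gadget (kO (p x.1)) (mO (q x.1) (p x.1))
      (bsum (p x.1) fun w => (R (x.1, x.2, w)).toNat * mono (sO (p x.1)) w r))) ^ (q x.1 + 1))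
    ?_ hq
  refine CountP.pow ?_ (UPoly.add (hq.comp g1) (UPoly.const 1))
  refine CountP.bsum (f := fun x : (α × List Bool) × List Bool =>
    gadget (kO (p x.1.1)) (mO (q x.1.1) (p x.1.1))
      (bsum (p x.1.1) fun w => (R (x.1.1, x.1.2, w)).toNat * mono (sO (p x.1.1)) w x.2))
    ?_ (UPoly.mul (hp.comp g1) ((upoly_sO hp).comp g1))
  refine countP_gadget ((upoly_kO hp).comp g2) ((upoly_mO hq hp).comp g2) ?_
  refine CountP.bsum (f := fun x : ((α × List Bool) × List Bool) × List Bool =>
    (R (x.1.1.1, x.1.1.2, x.2)).toNat * mono (sO (p x.1.1.1)) x.2 x.1.2) ?_ (hp.comp g2)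
  refine CountP.ofPoly (Poly.mul ?_ ?_)
  · refine (Poly.cond (hR.comp (Poly.pair g3 (Poly.pair (Poly.snd (Poly.fst (Poly.fst Poly.id)))
      (Poly.snd Poly.id)))) (Poly.const 1) (Poly.const 0)).congr fun x => ?_
    beta_reduce
    cases R (x.1.1.1, x.1.1.2, x.2) <;> rfl
  · exact poly_mono ((upoly_sO hp).toPoly.comp g3) (Poly.snd Poly.id) (Poly.snd (Poly.fst Poly.id))

/-- The decoding of the answer. -/
def answer (q p v : ℕ) : ℕ := 2 ^ q - (v % kO p ^ mO q p) / 2 ^ (p * sO p * (q + 1))

theorem answer_eq (R : α × List Bool × List Bool → Bool) (q p : α → ℕ) (a : α) :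
    answer (q a) (p a) (oracleS R q p a) = Nat.card {y : List Bool // y.length = q a ∧
      ∃ w : List Bool, w.length = p a ∧ R (a, y, w) = true} := by
  have h := count_exists_eq (fun y w => R (a, y, w)) (q := q a) (p := p a) (s := sO (p a))
    (t := q a + 1) (k := kO (p a)) (M := mO (q a) (p a)) (kO_spec _).1 (two_mul_le_sO _)
    (kO_spec _).2.1 (by omega) (by unfold mO; omega)
  unfold answer oracleS
  rw [← h, bsum_eq_card]
  refine Nat.card_congr (Equiv.subtypeEquivRight fun y => ?_)
  rw [exB_iff]

/-- **`#·NP ⊆ FP^#P`**: the number of the strings `y` of polynomial length which have a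
certificate `w` of polynomial length, for a polynomial-time relation, followed by a polynomial-time
function, is computable in polynomial time with an oracle for a function in `#P`. -/
theorem inFPSharpP_of_sharpNP [TDec α] (R : α × List Bool × List Bool → Bool)
    (q p : α → ℕ) (post : α × ℕ → ℕ) (f : α → ℕ) (hR : Poly R) (hq : UPoly q) (hp : UPoly p)
    (hpost : Poly post) (hf : ∀ a, f a = post (a, Nat.card {y : List Bool // y.length = q a ∧
      ∃ w : List Bool, w.length = p a ∧ R (a, y, w) = true})) : InFPSharpP (strFn f) := by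
  have hS := countP_oracleS hR hq hp
  obtain ⟨r, hr⟩ := hS.size_bound
  refine ⟨strFn (oracleS R q p), hS.sharpP, ?_⟩
  refine turingReduces_of_list (α := α) (g := oracleS R q p)
    (fun x => match (decode x : Option α) with
      | none => []
      | some a => [a])
    (fun x => match (decode x.1 : Option α) with
      | none => 0
      | some a => post (a, answer (q a) (p a) (x.2.head?.getD 0))) ?_ ?_ ?_ r hr
  · refine (Poly.optCases (o := fun x : List Bool => (decode x : Option α))
      (g := fun _ => []) (h := fun _ a => [a]) poly_decode (Poly.const _)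
      (Poly.cons (Poly.snd Poly.id) (Poly.const _))).congr fun x => ?_
    cases (decode x : Option α) <;> rfl
  · refine (Poly.optCases (o := fun x : List Bool × List ℕ => (decode x.1 : Option α))
      (g := fun _ => 0) (h := fun x a => post (a, answer (q a) (p a) (x.2.head?.getD 0)))
      (poly_decode.comp (Poly.fst Poly.id)) (Poly.const _) ?_).congr fun x => ?_
    · have f2 : Poly (fun x : (List Bool × List ℕ) × α => x.2) := Poly.snd Poly.id
      have hv : Poly (fun x : (List Bool × List ℕ) × α => x.1.2.head?.getD 0) :=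
        Poly.head?_getD (Poly.snd (Poly.fst Poly.id)) 0
      refine hpost.comp (Poly.pair f2 ?_)
      unfold answer
      exact Poly.sub (Uc.poly_upow (hq.comp f2) (Poly.const 2)) (Poly.div (Poly.mod hv
        (Uc.poly_upow ((upoly_mO hq hp).comp f2) ((upoly_kO hp).toPoly.comp f2)))
        (Uc.poly_upow (UPoly.mul (UPoly.mul (hp.comp f2) ((upoly_sO hp).comp f2))
          (UPoly.add (hq.comp f2) (UPoly.const 1))) (Poly.const 2)))
    · cases (decode x.1 : Option α) <;> rfl
  · intro x
    by_cases hx : ∃ a : α, bits a = x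
    · obtain ⟨a, rfl⟩ := hx
      have h1 : decode (bits a) = some a := decode_eq_some.2 rfl
      rw [strFn_bits]
      simp only [h1, List.map_cons, List.map_nil, List.head?_cons, Option.getD_some]
      rw [answer_eq, hf]
    · rw [strFn_of_not _ hx]
      cases h1 : (decode x : Option α) with
      | none => rfl
      | some a => exact absurd ⟨a, decode_eq_some.1 h1⟩ hx

end Pool.Agent.NPC.Cnt
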